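import Pool.Agent.J6H47.PosGroup.Main

/-!
# Positive groups on ordered Hilbert spaces: `s(A) = ω₀`

Let `H` be a real Hilbert space with a closed, normal, generating cone `H₊` and let
`(T_t)_{t ∈ ℝ}` be a strongly continuous group of positive operators on the complexification of
`H`. Then the spectral bound of its generator is equal to its growth bound. This is the positive
answer to Q1 of MP_e5770a_an.
-/

open Filter Topology

namespace Pool.Agent.Results.MP_e5770a_an.PositiveGroups

open Pool.Agent.J6H47.PosGroup

set_option linter.unusedSectionVars false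

noncomputable section

/-- The complexification `H_ℂ = H ⊕ i H` of a real Hilbert space `H`. Its elements are the pairs
`(x, y)`, which stand for `x + i y`, with norm `‖x + i y‖ = (‖x‖² + ‖y‖²)^(1/2)`. -/
def Complexification (H : Type*) : Type _ := WithLp 2 (H × H)

namespace Complexification

variable {H : Type*} [NormedAddCommGroup H] [InnerProductSpace ℝ H]

instance : NormedAddCommGroup (Complexification H) :=
  inferInstanceAs (NormedAddCommGroup (WithLp 2 (H × H)))

instance [CompleteSpace H] : CompleteSpace (Complexification H) :=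
  inferInstanceAs (CompleteSpace (WithLp 2 (H × H)))

/-- The element `x + i y` of the complexification. -/
def mk (x y : H) : Complexification H := WithLp.toLp 2 (x, y)

/-- The real part `x` of `x + i y`. -/
def re (p : Complexification H) : H := WithLp.fst p

/-- The imaginary part `y` of `x + i y`. -/
def im (p : Complexification H) : H := WithLp.snd p

/-- Multiplication by complex numbers:
`(a + i b) (x + i y) = (a x - b y) + i (b x + a y)`. -/
instance : SMul ℂ (Complexification H) :=
  ⟨fun z p => mk (z.re • re p - z.im • im p) (z.im • re p + z.re • im p)⟩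

@[simp] lemma re_mk (x y : H) : re (mk x y) = x := rfl
@[simp] lemma im_mk (x y : H) : im (mk x y) = y := rfl
@[simp] lemma mk_re_im (p : Complexification H) : mk (re p) (im p) = p := rfl
@[simp] lemma re_zero : re (0 : Complexification H) = 0 := rfl
@[simp] lemma im_zero : im (0 : Complexification H) = 0 := rfl
@[simp] lemma re_add (p q : Complexification H) : re (p + q) = re p + re q := rfl
@[simp] lemma im_add (p q : Complexification H) : im (p + q) = im p + im q := rfl
@[simp] lemma re_smul (z : ℂ) (p : Complexification H) :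
    re (z • p) = z.re • re p - z.im • im p := rfl
@[simp] lemma im_smul (z : ℂ) (p : Complexification H) :
    im (z • p) = z.im • re p + z.re • im p := rfl

lemma ext' {p q : Complexification H} (h1 : re p = re q) (h2 : im p = im q) : p = q := by
  rw [← mk_re_im p, ← mk_re_im q, h1, h2]

instance : Module ℂ (Complexification H) where
  one_smul p := by apply ext' <;> simp
  mul_smul z w p := by
    apply ext'
    · simp only [re_smul, im_smul, Complex.mul_re, Complex.mul_im]
      module
    · simp only [re_smul, im_smul, Complex.mul_re, Complex.mul_im]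
      module
  smul_zero z := by apply ext' <;> simp
  smul_add z p q := by
    apply ext'
    · simp only [re_smul, re_add, im_add]
      module
    · simp only [im_smul, re_add, im_add]
      module
  add_smul z w p := by
    apply ext'
    · simp only [re_smul, re_add, Complex.add_re, Complex.add_im]
      module
    · simp only [im_smul, im_add, Complex.add_re, Complex.add_im]
      module
  zero_smul p := by apply ext' <;> simp

lemma norm_sq (p : Complexification H) : ‖p‖ ^ 2 = ‖re p‖ ^ 2 + ‖im p‖ ^ 2 :=
  WithLp.prod_norm_sq_eq_of_L2 p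

instance : InnerProductSpace ℂ (Complexification H) where
  norm_smul_le z p := by
    refine le_of_sq_le_sq ?_ (by positivity)
    rw [mul_pow, norm_sq, norm_sq p, re_smul, im_smul, Complex.sq_norm, Complex.normSq_apply]
    rw [norm_sub_sq_real, norm_add_sq_real]
    simp only [norm_smul, mul_pow, Real.norm_eq_abs, sq_abs, inner_smul_left, inner_smul_right,
      RCLike.conj_to_real]
    nlinarith
  /- `⟨x + i y, u + i v⟩ = (⟨x, u⟩ + ⟨y, v⟩) + i (⟨x, v⟩ - ⟨y, u⟩)`, linear in the second
  argument. -/
  inner p q := ⟨inner ℝ (re p) (re q) + inner ℝ (im p) (im q),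
    inner ℝ (re p) (im q) - inner ℝ (im p) (re q)⟩
  norm_sq_eq_re_inner p := by
    simp [norm_sq]
  conj_inner_symm p q := by
    apply Complex.ext
    · simp [real_inner_comm]
    · simp [real_inner_comm]
  add_left p q r := by
    apply Complex.ext
    · simp only [re_add, im_add, inner_add_left, Complex.add_re]
      ring
    · simp only [re_add, im_add, inner_add_left, Complex.add_im]
      ring
  smul_left p q z := by
    apply Complex.ext
    · simp only [re_smul, im_smul, inner_sub_left, inner_add_left, inner_smul_left,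
        RCLike.conj_to_real, Complex.mul_re, Complex.conj_re, Complex.conj_im]
      ring
    · simp only [re_smul, im_smul, inner_sub_left, inner_add_left, inner_smul_left,
        RCLike.conj_to_real, Complex.mul_im, Complex.conj_re, Complex.conj_im]
      ring

/-- The inclusion `x ↦ x + i 0` of `H` into its complexification. -/
def ofReal (x : H) : Complexification H := mk x 0

end Complexification

/-- `P` is the positive cone `H₊` of an ordering of the real Hilbert space `H`: a convex cone
which is closed, normal and generating. -/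
structure IsOrderCone {H : Type*} [NormedAddCommGroup H] [InnerProductSpace ℝ H]
    (P : Set H) : Prop where
  zero_mem : (0 : H) ∈ P
  add_mem : ∀ x ∈ P, ∀ y ∈ P, x + y ∈ P
  smul_mem : ∀ r : ℝ, 0 ≤ r → ∀ x ∈ P, r • x ∈ P
  closed : IsClosed P
  /-- `0 ≤ x ≤ y` implies `‖x‖ ≤ c ‖y‖` -/
  normal : ∃ c : ℝ, 0 < c ∧ ∀ x y, x ∈ P → y - x ∈ P → ‖x‖ ≤ c * ‖y‖
  /-- `H₊ - H₊ = H` -/
  generating : ∀ z : H, ∃ x ∈ P, ∃ y ∈ P, z = x - y

open Complexification

/-- **Theorem.** Let `H` be a real Hilbert space with a closed, normal, generating cone `P`, and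
let `T` be a strongly continuous group of operators on the complexification of `H` such that all
`T t`, `t ∈ ℝ`, map `P` into itself. Then `log ‖T t‖ / t` tends to the spectral bound
`s(A) = sup {Re z | z ∈ σ(A)}` of the generator as `t → ∞`, that is, the growth bound `ω₀` is
equal to `s(A)`. If `H ≠ 0` then this is a real number. -/
theorem result {H : Type*} [NormedAddCommGroup H] [InnerProductSpace ℝ H] [CompleteSpace H]
    (P : Set H) (hP : IsOrderCone P)
    (T : ℝ → (Complexification H →L[ℂ] Complexification H)) (hT : IsC0Group T)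
    (hpos : ∀ t : ℝ, ∀ x ∈ P, ∃ y ∈ P, T t (ofReal x) = ofReal y) :
    Tendsto (fun t : ℝ => ENNReal.log ‖T t‖ₑ / (t : EReal)) atTop (𝓝 (spectralBound T)) ∧
    (Nontrivial H → ∃ ω : ℝ, spectralBound T = (ω : EReal) ∧
      Tendsto (fun t : ℝ => Real.log ‖T t‖ / t) atTop (𝓝 ω)) := by
  have hnorm : ∀ x : H, ‖ofReal x‖ = ‖x‖ := fun x => by
    have h := norm_sq (ofReal x)
    simp only [ofReal, re_mk, im_mk, norm_zero] at h
    have h2 : ‖ofReal x‖ ^ 2 = ‖x‖ ^ 2 := by rw [ofReal, h]; ring
    exact (pow_left_inj₀ (norm_nonneg _) (norm_nonneg _) two_ne_zero).1 h2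
  have hadd : ∀ x y : H, ofReal x + ofReal y = ofReal (x + y) := fun x y => by
    apply ext' <;> simp [ofReal]
  have hsub : ∀ x y : H, ofReal x - ofReal y = ofReal (x - y) := fun x y => by
    rw [sub_eq_iff_eq_add, hadd, sub_add_cancel]
  have hsmul : ∀ (r : ℝ) (x : H), (r : ℂ) • ofReal x = ofReal (r • x) := fun r x => by
    apply ext'
    · rw [re_smul]
      simp [ofReal]
    · rw [im_smul]
      simp [ofReal]
  have hiso : Isometry (ofReal : H → Complexification H) :=
    Isometry.of_dist_eq fun x y => by rw [dist_eq_norm, dist_eq_norm, hsub, hnorm]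
  -- the cone in the complexification
  have hQ : ConeHyp (ofReal '' P) := by
    refine ⟨?_, ?_, ?_, ?_, ?_⟩
    · exact hiso.isClosedEmbedding.isClosedMap _ hP.closed
    · rintro _ ⟨x, hx, rfl⟩ _ ⟨y, hy, rfl⟩
      exact ⟨x + y, hP.add_mem x hx y hy, (hadd x y).symm⟩
    · rintro r hr _ ⟨x, hx, rfl⟩
      exact ⟨r • x, hP.smul_mem r hr x hx, (hsmul r x).symm⟩
    · obtain ⟨c, hc0, hc⟩ := hP.normal
      refine ⟨c, hc0.le, ?_⟩
      rintro _ y' ⟨x, hx, rfl⟩ ⟨w, hw, hw2⟩
      have hy : y' = ofReal (w + x) := by
        rw [← hadd, hw2, sub_add_cancel]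
      rw [hy, hnorm, hnorm]
      refine hc x (w + x) hx ?_
      rwa [add_sub_cancel_right]
    · intro z
      obtain ⟨a, ha, b, hb, hab⟩ := hP.generating (re z)
      obtain ⟨c, hc, d, hd, hcd⟩ := hP.generating (im z)
      refine ⟨_, ⟨a, ha, rfl⟩, _, ⟨b, hb, rfl⟩, _, ⟨c, hc, rfl⟩, _, ⟨d, hd, rfl⟩, ?_⟩
      rw [hsub, hsub, ← hab, ← hcd]
      apply ext' <;> simp [ofReal]
  have hTQ : ∀ t, ∀ x ∈ (ofReal '' P : Set (Complexification H)),
      T t x ∈ (ofReal '' P : Set (Complexification H)) := by
    rintro t _ ⟨x, hx, rfl⟩
    obtain ⟨y, hy, h⟩ := hpos t x hx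
    exact ⟨y, hy, h.symm⟩
  refine ⟨main hT hQ hTQ, fun hH => ?_⟩
  have : Nontrivial (Complexification H) := hiso.injective.nontrivial
  exact main_real hT hQ hTQ

end

end Pool.Agent.Results.MP_e5770a_an.PositiveGroups
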